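import Pool.Agent.H542.OC.H1

/-!
Aperiodic functions: the correlations of order four are small at all but few scales.
-/

set_option autoImplicit false

namespace Pool.Agent.H542.OC

open Finset Polynomial
open Pool.Agent.Results.MP_4a7640_nt.FixedAndShortDistances (IsMultSign Aperiodic excCorr Good cluster OfScale)

section
variable {ι : Type} [Fintype ι] [DecidableEq ι] {r : ℕ}

/-- the condition on the forms: an odd number of forms, or a form which varies in a direction in which the others do not -/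
def BGood (a : ι → ℤ) (L : ι → Fin r → ℤ) (b : ι → ℤ) : Prop :=
  Odd (Fintype.card ι) ∨ ∃ (i₁ : ι) (v : ℤ) (w : Fin r → ℤ) (c : ℤ),
    a i₁ * v + ∑ j, L i₁ j * w j + c * b i₁ ≠ 0 ∧ ∀ i, i ≠ i₁ → a i * v + ∑ j, L i j * w j + c * b i = 0

omit [Fintype ι] [DecidableEq ι] in
lemma p8_par (a : ι → ℤ) (ha : ∀ i, a i ≠ 0) (i i₀ : ι) (p q t : Bool)
    (h : ∀ s s', p8 a (i, ((p, q), t)) s * p8 a (i₀, ((true, true), true)) s' =
      p8 a (i, ((p, q), t)) s' * p8 a (i₀, ((true, true), true)) s) : p = true ∧ q = true ∧ t = true := by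
  have h0 := mul_ne_zero (ha i) (ha i₀)
  refine ⟨?_, ?_, ?_⟩
  · have := h (Sum.inr (Sum.inl false)) (Sum.inr (Sum.inl true))
    cases p
    · simp only [p8, if_true, Bool.false_eq_true, if_false, reduceCtorEq, mul_zero] at this
      exact absurd this h0
    · rfl
  · have := h (Sum.inr (Sum.inr false)) (Sum.inr (Sum.inr true))
    cases q
    · simp only [p8, if_true, Bool.false_eq_true, if_false, reduceCtorEq, mul_zero] at this
      exact absurd this h0
    · rfl
  · have := h (Sum.inl false) (Sum.inl true)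
    cases t
    · simp only [p8, if_true, Bool.false_eq_true, if_false, reduceCtorEq, mul_zero] at this
      exact absurd this h0
    · rfl

omit [Fintype ι] [DecidableEq ι] in
lemma p8_par' (a : ι → ℤ) (i i₀ : ι) (s s' : Bool ⊕ (Bool ⊕ Bool)) :
    p8 a (i, ((true, true), true)) s * p8 a (i₀, ((true, true), true)) s' =
      p8 a (i, ((true, true), true)) s' * p8 a (i₀, ((true, true), true)) s := by
  rcases s with s | s | s <;> rcases s' with s' | s' | s' <;> cases s <;> cases s' <;> simp [p8]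

omit [DecidableEq ι] in
/-- the system of eight translates, with index sets of the form `Fin` -/
lemma good8 (a : ι → ℤ) (ha : ∀ i, a i ≠ 0) (L : ι → Fin r → ℤ) (b : ι → ℤ) (hg : BGood a L b) {k p : ℕ}
    (A : (ι × ((Bool × Bool) × Bool)) ≃ Fin k) (P : (Bool ⊕ (Bool ⊕ Bool)) ≃ Fin p) :
    Good (fun z s => p8 a (A.symm z) (P.symm s)) (fun z => L (A.symm z).1) (fun z => b (A.symm z).1) univ := by
  classical
  -- the cluster of a base form
  have hcl : ∀ i₀ : ι, ∀ z, z ∈ cluster (fun z s => p8 a (A.symm z) (P.symm s)) univ (A (i₀, ((true, true), true))) ↔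
      ∃ i, z = A (i, ((true, true), true)) := by
    intro i₀ z
    unfold cluster
    rw [mem_filter]
    simp only [mem_univ, true_and, Equiv.symm_apply_apply]
    constructor
    · intro h
      obtain ⟨⟨i, ⟨p, q⟩, t⟩, hz⟩ : ∃ w, A.symm z = w := ⟨_, rfl⟩
      rw [hz] at h
      obtain ⟨rfl, rfl, rfl⟩ := p8_par a ha i i₀ p q t (fun s s' => by
        have := h (P s) (P s')
        simpa using this)
      exact ⟨i, by rw [← hz, Equiv.apply_symm_apply]⟩
    · rintro ⟨i, rfl⟩ s s'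
      rw [Equiv.symm_apply_apply]
      exact p8_par' a i i₀ _ _
  rcases hg with hodd | ⟨i₁, v, w, c, h1, h2⟩
  · have hne : Nonempty ι := by
      rw [← Fintype.card_pos_iff]
      exact hodd.pos
    obtain ⟨i₀⟩ := hne
    refine ⟨A (i₀, ((true, true), true)), mem_univ _, Or.inl ?_⟩
    have : cluster (fun z s => p8 a (A.symm z) (P.symm s)) univ (A (i₀, ((true, true), true))) =
        univ.image (fun i : ι => A (i, ((true, true), true))) := by
      ext z
      rw [hcl, mem_image]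
      constructor
      · rintro ⟨i, rfl⟩
        exact ⟨i, mem_univ _, rfl⟩
      · rintro ⟨i, _, rfl⟩
        exact ⟨i, rfl⟩
    rw [this, card_image_of_injective _ (fun i i' h => by
      have := A.injective h
      exact congrArg Prod.fst this), card_univ]
    exact hodd
  · refine ⟨A (i₁, ((true, true), true)), mem_univ _, Or.inr ⟨A (i₁, ((true, true), true)), (hcl i₁ _).2 ⟨i₁, rfl⟩,
      fun s => (Sum.elim (fun t => if t = true then v else 0) (fun _ => 0) : Bool ⊕ (Bool ⊕ Bool) → ℤ) (P.symm s), w, c, ?_, ?_⟩⟩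
    · have e1 : ∑ s, p8 a (A.symm (A (i₁, ((true, true), true)))) (P.symm s) *
          (Sum.elim (fun t => if t = true then v else 0) (fun _ => 0) : Bool ⊕ (Bool ⊕ Bool) → ℤ) (P.symm s) = a i₁ * v := by
        rw [Equiv.sum_comp P.symm (fun s => p8 a (A.symm (A (i₁, ((true, true), true)))) s *
          (Sum.elim (fun t => if t = true then v else 0) (fun _ => 0) : Bool ⊕ (Bool ⊕ Bool) → ℤ) s), Equiv.symm_apply_apply,
          p8_sum]
        simp
      rw [e1]
      simp only [Equiv.symm_apply_apply]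
      exact h1
    · intro z hz hne
      obtain ⟨i, rfl⟩ := (hcl i₁ z).1 hz
      have hii : i ≠ i₁ := fun h => hne (by rw [h])
      have e1 : ∑ s, p8 a (A.symm (A (i, ((true, true), true)))) (P.symm s) *
          (Sum.elim (fun t => if t = true then v else 0) (fun _ => 0) : Bool ⊕ (Bool ⊕ Bool) → ℤ) (P.symm s) = a i * v := by
        rw [Equiv.sum_comp P.symm (fun s => p8 a (A.symm (A (i, ((true, true), true)))) s *
          (Sum.elim (fun t => if t = true then v else 0) (fun _ => 0) : Bool ⊕ (Bool ⊕ Bool) → ℤ) s), Equiv.symm_apply_apply,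
          p8_sum]
        simp
      rw [e1]
      simp only [Equiv.symm_apply_apply]
      exact h2 i hii

/-- the sizes of the scale `2^(-i)` -/
def Sc (R i x : ℕ) (Y : Fin r → ℕ) (N : ℕ) (D : Fin r → ℕ) : Prop :=
  (x ≤ R * 2 ^ i * N ∧ 2 ^ i * N ≤ R * x) ∧ ∀ s, Y s ≤ R * 2 ^ i * D s ∧ 2 ^ i * D s ≤ R * Y s

/-- the bad sizes -/
def BadQ (f : ℕ → ℝ) (a : ι → ℤ) (L : ι → Fin r → ℤ) (b : ι → ℤ) (q : ℕ) (δ : ℝ) (N : ℕ) (D : Fin r → ℕ) : Prop :=
  ¬ QS (Fintype.piFinset (fun j => Icc (1 : ℤ) (D j))) (fun d n => ((FR f a L b d n : ℝ) : ℂ)) N (N / q) δ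

theorem exc_QS (f : ℕ → ℝ) (hf : IsMultSign f) (hap : Aperiodic f) (a : ι → ℤ) (ha : ∀ i, a i ≠ 0) (L : ι → Fin r → ℤ)
    (b : ι → ℤ) (hg : BGood a L b) (R q : ℕ) (hq : 1 ≤ q) (δ : ℝ) (hδ : 0 < δ) : ∃ C : ℝ, ∀ J : ℕ, ∃ K : ℕ,
      ∀ (x : ℕ) (Y : Fin r → ℕ), K ≤ x → (∀ s, K ≤ Y s ∧ Y s ≤ R * x) → ∀ S : Finset ℕ,
        (∀ i ∈ S, i ∈ Icc 1 J ∧ ∃ (N : ℕ) (D : Fin r → ℕ), Sc R i x Y N D ∧ BadQ f a L b q δ N D) →
        ∑ i ∈ S, 1 / (i : ℝ) ≤ C := by
  classical
  set A := Fintype.equivFin (ι × ((Bool × Bool) × Bool)) with hA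
  set P := Fintype.equivFin (Bool ⊕ (Bool ⊕ Bool)) with hP
  set φ : Fin (Fintype.card (ι × ((Bool × Bool) × Bool))) → Fin (Fintype.card (Bool ⊕ (Bool ⊕ Bool))) → ℤ :=
    fun z s => p8 a (A.symm z) (P.symm s) with hφ
  set L' : Fin (Fintype.card (ι × ((Bool × Bool) × Bool))) → Fin r → ℤ := fun z => L (A.symm z).1 with hL'
  set b' : Fin (Fintype.card (ι × ((Bool × Bool) × Bool))) → ℤ := fun z => b (A.symm z).1 with hb'
  have hφ0 : ∀ z, φ z ≠ 0 := by
    intro z h0
    obtain ⟨⟨i, ⟨p, q'⟩, t⟩, hz⟩ : ∃ w, A.symm z = w := ⟨_, rfl⟩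
    have := congrFun h0 (P (Sum.inl t))
    rw [hφ] at this
    simp only [hz, Equiv.symm_apply_apply, p8, if_true, Pi.zero_apply] at this
    exact ha i this
  set R' : ℕ := 2 * q * R + R + 1 with hR'
  obtain ⟨C, hC⟩ := (Pool.Agent.Results.MP_4a7640_nt.FixedAndShortDistances.result f hf hap _ _ r φ L' b' hφ0).1
    (good8 a ha L b hg A P) R' (δ ^ 2) (by positivity)
  refine ⟨C, fun J => ?_⟩
  obtain ⟨K, hK⟩ := hC J
  refine ⟨max K (R * 2 ^ J * q + 1), fun x Y hx hY S hS => ?_⟩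
  have hRR : R ≤ R' := by omega
  refine le_trans (sum_le_sum_of_subset_of_nonneg ?_ fun _ _ _ => by positivity) (hK x Y ((le_max_left _ _).trans hx)
    (fun s => ⟨(le_max_left _ _).trans (hY s).1, (hY s).2.trans (Nat.mul_le_mul_right _ hRR)⟩))
  intro i hi
  obtain ⟨hiJ, N, D, ⟨⟨hs1, hs2⟩, hs3⟩, hbad⟩ := hS i hi
  unfold excCorr
  rw [mem_filter]
  refine ⟨hiJ, ?_⟩
  set H := N / q with hH
  have hNq : q ≤ N := by
    by_contra hcon
    push Not at hcon
    have e1 : R * 2 ^ i * N ≤ R * 2 ^ J * q := by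
      have e2 : 2 ^ i ≤ 2 ^ J := Nat.pow_le_pow_right (by norm_num) (mem_Icc.1 hiJ).2
      exact Nat.mul_le_mul (Nat.mul_le_mul_left _ e2) hcon.le
    have e3 := (le_max_right K (R * 2 ^ J * q + 1)).trans hx
    omega
  have hH1 : 1 ≤ H := (Nat.le_div_iff_mul_le (by omega)).2 (by omega)
  have hHN : H ≤ N := Nat.div_le_self _ _
  have hN2 : N ≤ 2 * q * H := by
    have h1 : N < q * (H + 1) := Nat.lt_mul_div_succ N (by omega : 0 < q)
    have h2 : q * (H + 1) ≤ 2 * q * H := by nlinarith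
    omega
  set Xρ : Bool ⊕ (Bool ⊕ Bool) → ℕ := Sum.elim (fun _ => N) (fun _ => H) with hXρ
  refine ⟨Xρ ∘ P.symm, D, ⟨?_, ?_⟩, ?_⟩
  · intro s
    have hcase : (Xρ ∘ P.symm) s = N ∨ (Xρ ∘ P.symm) s = H := by
      rw [Function.comp_apply, hXρ]
      rcases P.symm s with z | z
      · exact Or.inl rfl
      · exact Or.inr rfl
    rcases hcase with e | e
    · rw [e]
      refine ⟨hs1.trans ?_, hs2.trans (Nat.mul_le_mul_right _ hRR)⟩
      exact Nat.mul_le_mul_right _ (Nat.mul_le_mul_right _ hRR)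
    · rw [e]
      constructor
      · calc x ≤ R * 2 ^ i * N := hs1
          _ ≤ R * 2 ^ i * (2 * q * H) := Nat.mul_le_mul_left _ hN2
          _ = (2 * q * R) * 2 ^ i * H := by ring
          _ ≤ R' * 2 ^ i * H := Nat.mul_le_mul_right _ (Nat.mul_le_mul_right _ (by omega))
      · calc 2 ^ i * H ≤ 2 ^ i * N := Nat.mul_le_mul_left _ hHN
          _ ≤ R * x := hs2
          _ ≤ R' * x := Nat.mul_le_mul_right _ hRR
  · intro s
    exact ⟨(hs3 s).1.trans (Nat.mul_le_mul_right _ (Nat.mul_le_mul_right _ hRR)),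
      (hs3 s).2.trans (Nat.mul_le_mul_right _ hRR)⟩
  · by_contra hcon
    push Not at hcon
    apply hbad
    refine QS_of_sq _ (fun d n => FR f a L b d n) N H δ hδ ?_
    have h1 : ∀ d : Fin r → ℤ, ∑ n ∈ Pool.Agent.Results.MP_4a7640_nt.FixedAndShortDistances.box (Xρ ∘ P.symm),
        ∏ z, f (Pool.Agent.Results.MP_4a7640_nt.FixedAndShortDistances.val (φ z) (L' z) (b' z) n d).natAbs =
        ∑ h ∈ Icc 1 H, ∑ h' ∈ Icc 1 H, ∑ m ∈ Icc 1 H, ∑ m' ∈ Icc 1 H, R4 (FR f a L b d) N h h' m m' ^ 2 := by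
      intro d
      have e1 := box_equiv P Xρ (fun n => ∏ z, f (Pool.Agent.Results.MP_4a7640_nt.FixedAndShortDistances.val (φ z) (L' z) (b' z) n d).natAbs)
      unfold Pool.Agent.Results.MP_4a7640_nt.FixedAndShortDistances.box
      rw [← e1]
      have e2 : ∀ v : Bool ⊕ (Bool ⊕ Bool) → ℤ, ∏ z, f (Pool.Agent.Results.MP_4a7640_nt.FixedAndShortDistances.val (φ z) (L' z) (b' z) (v ∘ P.symm) d).natAbs =
          ∏ z : ι × ((Bool × Bool) × Bool), f (∑ s, p8 a z s * v s + ∑ j, L z.1 j * d j + b z.1).natAbs := by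
        intro v
        rw [← Equiv.prod_comp A.symm (fun z : ι × ((Bool × Bool) × Bool) =>
          f (∑ s, p8 a z s * v s + ∑ j, L z.1 j * d j + b z.1).natAbs)]
        refine prod_congr rfl fun z _ => ?_
        congr 2
        unfold Pool.Agent.Results.MP_4a7640_nt.FixedAndShortDistances.val
        rw [hφ, hL', hb']
        simp only [Function.comp_apply]
        rw [Equiv.sum_comp P.symm (fun s => p8 a (A.symm z) s * v s)]
      simp only [e2]
      rw [hXρ, box4]
      simp only [← sq8]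
      rw [sum_comm]
      refine sum_congr rfl fun h _ => ?_
      rw [sum_comm]
      refine sum_congr rfl fun h' _ => ?_
      rw [sum_comm]
      refine sum_congr rfl fun m _ => ?_
      rw [sum_comm]
    have h2 : ∏ s, (((Xρ ∘ P.symm) s : ℕ) : ℝ) = (N : ℝ) ^ 2 * (H : ℝ) ^ 4 := by
      rw [Function.comp_def, Equiv.prod_comp P.symm (fun s => ((Xρ s : ℕ) : ℝ)), Fintype.prod_sum_type, Fintype.prod_sum_type,
        Fintype.prod_bool, Fintype.prod_bool, Fintype.prod_bool, hXρ]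
      simp only [Sum.elim_inl, Sum.elim_inr]
      ring
    rw [h2] at hcon
    have h3 : ∑ d ∈ Fintype.piFinset (fun j => Icc (1 : ℤ) (D j)), ∑ h ∈ Icc 1 H, ∑ h' ∈ Icc 1 H, ∑ m ∈ Icc 1 H,
        ∑ m' ∈ Icc 1 H, R4 (FR f a L b d) N h h' m m' ^ 2 ≤
        ∑ d ∈ Pool.Agent.Results.MP_4a7640_nt.FixedAndShortDistances.box D,
          |∑ n ∈ Pool.Agent.Results.MP_4a7640_nt.FixedAndShortDistances.box (Xρ ∘ P.symm),
            ∏ z, f (Pool.Agent.Results.MP_4a7640_nt.FixedAndShortDistances.val (φ z) (L' z) (b' z) n d).natAbs| := by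
      unfold Pool.Agent.Results.MP_4a7640_nt.FixedAndShortDistances.box at h1 ⊢
      refine sum_le_sum fun d _ => ?_
      rw [h1]
      exact le_abs_self _
    refine h3.trans (hcon.trans (le_of_eq ?_))
    rw [box_card]
    ring

end

end Pool.Agent.H542.OC
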