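import Pool.Agent.H542.OC.H2

/-!
Aperiodic functions along polynomials, at all but few scales.
-/

set_option autoImplicit false

namespace Pool.Agent.H542.OC

open Finset Polynomial
open Pool.Agent.H542.PC (LamC)
open Pool.Agent.Results.MP_4a7640_nt.FixedAndShortDistances (IsMultSign Aperiodic)

section
variable {ι : Type} [Fintype ι] [DecidableEq ι] {r : ℕ}

omit [DecidableEq ι] in
lemma FR_abs (f : ℕ → ℝ) (hf : IsMultSign f) (a : ι → ℤ) (L : ι → Fin r → ℤ) (b : ι → ℤ) (d : Fin r → ℤ) (n : ℤ) :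
    |FR f a L b d n| ≤ 1 := by
  unfold FR
  rw [abs_prod]
  refine prod_le_one (fun _ _ => abs_nonneg _) fun i _ => ?_
  rcases hf.1 (a i * n + ∑ j, L i j * d j + b i).natAbs with h | h <;> rw [h] <;> simp

omit [DecidableEq ι] in
lemma FR_neg (f : ℕ → ℝ) (a : ι → ℤ) (L : ι → Fin r → ℤ) (b : ι → ℤ) (d : Fin r → ℤ) (n : ℤ) :
    FR f (fun i => - a i) L b d n = FR f a L b d (-n) := by
  unfold FR
  refine prod_congr rfl fun i _ => ?_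
  congr 2
  ring

omit [Fintype ι] [DecidableEq ι] in
lemma BGood_neg [Fintype ι] {a : ι → ℤ} {L : ι → Fin r → ℤ} {b : ι → ℤ} (h : BGood a L b) : BGood (fun i => - a i) L b := by
  rcases h with h | ⟨i₁, v, w, c, h1, h2⟩
  · exact Or.inl h
  · refine Or.inr ⟨i₁, -v, w, c, ?_, fun i hi => ?_⟩
    · rw [neg_mul_neg]; exact h1
    · rw [neg_mul_neg]; exact h2 i hi

/-- large second moments along a polynomial, arbitrary weights -/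
def BadW (f : ℕ → ℝ) (a : ι → ℤ) (L : ι → Fin r → ℤ) (b : ι → ℤ) (P : ℤ[X]) (R : ℕ) (ε : ℝ) (N : ℕ) (D : Fin r → ℕ) : Prop :=
  ∃ y : ℕ, N ≤ y ^ P.natDegree ∧ y ^ P.natDegree ≤ R * N ∧ ∃ w : (Fin r → ℤ) → ℕ → ℂ, (∀ d m, ‖w d m‖ ≤ 1) ∧
    ε * (N * (y : ℝ) ^ 2 * ∏ j, (D j : ℝ)) < ∑ d ∈ Fintype.piFinset (fun j => Icc (1 : ℤ) (D j)), ∑ t ∈ Icc 1 N,
      ‖∑ m ∈ Icc 1 y, w d m * ((FR f a L b d (t + P.eval (m : ℤ)) : ℝ) : ℂ)‖ ^ 2

/-- large second moments along a polynomial at the primes -/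
def BadP (f : ℕ → ℝ) (a : ι → ℤ) (L : ι → Fin r → ℤ) (b : ι → ℤ) (P : ℤ[X]) (R : ℕ) (ε : ℝ) (N : ℕ) (D : Fin r → ℕ) : Prop :=
  ∃ y : ℕ, N ≤ y ^ P.natDegree ∧ y ^ P.natDegree ≤ R * N ∧
    ε * (N * (y : ℝ) ^ 2 * ∏ j, (D j : ℝ)) < ∑ d ∈ Fintype.piFinset (fun j => Icc (1 : ℤ) (D j)), ∑ t ∈ Icc 1 N,
      ‖∑ m ∈ Icc 1 y, LamC m * ((FR f a L b d (t + P.eval (m : ℤ)) : ℝ) : ℂ)‖ ^ 2

/-- the property `V` of the sizes holds at few scales -/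
def Few (R : ℕ) (V : ℕ → (Fin r → ℕ) → Prop) : Prop := ∃ C : ℝ, ∀ J : ℕ, ∃ K : ℕ, ∀ (x : ℕ) (Y : Fin r → ℕ), K ≤ x →
  (∀ s, K ≤ Y s ∧ Y s ≤ R * x) → ∀ S : Finset ℕ, (∀ i ∈ S, i ∈ Icc 1 J ∧ ∃ (N : ℕ) (D : Fin r → ℕ), Sc R i x Y N D ∧ V N D) →
    ∑ i ∈ S, 1 / (i : ℝ) ≤ C

lemma Few_or (R : ℕ) (V W : ℕ → (Fin r → ℕ) → Prop) (hV : Few R V) (hW : Few R W) : Few R (fun N D => V N D ∨ W N D) := by
  classical
  obtain ⟨C₁, h1⟩ := hV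
  obtain ⟨C₂, h2⟩ := hW
  refine ⟨C₁ + C₂, fun J => ?_⟩
  obtain ⟨K₁, h3⟩ := h1 J
  obtain ⟨K₂, h4⟩ := h2 J
  refine ⟨max K₁ K₂, fun x Y hx hY S hS => ?_⟩
  set S₁ := S.filter (fun i => ∃ (N : ℕ) (D : Fin r → ℕ), Sc R i x Y N D ∧ V N D) with hS₁
  have e1 := h3 x Y ((le_max_left _ _).trans hx) (fun s => ⟨(le_max_left _ _).trans (hY s).1, (hY s).2⟩) S₁ (by
    intro i hi
    rw [hS₁, mem_filter] at hi
    exact ⟨(hS i hi.1).1, hi.2⟩)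
  have e2 := h4 x Y ((le_max_right _ _).trans hx) (fun s => ⟨(le_max_right _ _).trans (hY s).1, (hY s).2⟩) (S \ S₁) (by
    intro i hi
    rw [mem_sdiff, hS₁, mem_filter] at hi
    obtain ⟨g1, N, D, g2, g3⟩ := hS i hi.1
    refine ⟨g1, N, D, g2, g3.resolve_left fun g4 => hi.2 ⟨hi.1, N, D, g2, g4⟩⟩)
  have e3 : ∑ i ∈ S, 1 / (i : ℝ) = ∑ i ∈ S \ S₁, 1 / (i : ℝ) + ∑ i ∈ S₁, 1 / (i : ℝ) :=
    (sum_sdiff (filter_subset _ _)).symm
  rw [e3]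
  linarith

lemma Few_empty (R : ℕ) : Few (r := r) R (fun _ _ => False) :=
  ⟨0, fun J => ⟨0, fun x Y _ _ S hS => by
    have : S = ∅ := by
      rw [eq_empty_iff_forall_notMem]
      intro i hi
      obtain ⟨_, N, D, _, h⟩ := hS i hi
      exact h
    rw [this, sum_empty]⟩⟩

lemma Few_fin {τ : Type} (T : Finset τ) (R : ℕ) (V : τ → ℕ → (Fin r → ℕ) → Prop) (h : ∀ z ∈ T, Few R (V z)) :
    Few R (fun N D => ∃ z ∈ T, V z N D) := by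
  classical
  induction T using Finset.induction_on with
  | empty =>
    obtain ⟨C, hC⟩ := Few_empty (r := r) R
    refine ⟨C, fun J => ?_⟩
    obtain ⟨K, hK⟩ := hC J
    refine ⟨K, fun x Y hx hY S hS => hK x Y hx hY S fun i hi => ?_⟩
    obtain ⟨g1, N, D, g2, z, hz, _⟩ := hS i hi
    exact absurd hz (notMem_empty _)
  | insert z T hz ih =>
    obtain ⟨C, hC⟩ := Few_or R _ _ (h z (mem_insert_self _ _)) (ih fun z' hz' => h z' (mem_insert_of_mem hz'))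
    refine ⟨C, fun J => ?_⟩
    obtain ⟨K, hK⟩ := hC J
    refine ⟨K, fun x Y hx hY S hS => hK x Y hx hY S fun i hi => ?_⟩
    obtain ⟨g1, N, D, g2, z', hz', g3⟩ := hS i hi
    refine ⟨g1, N, D, g2, ?_⟩
    rw [mem_insert] at hz'
    rcases hz' with rfl | hz'
    · exact Or.inl g3
    · exact Or.inr ⟨z', hz', g3⟩

/-- implications which hold for large sizes -/
lemma Few_imp (R C₁ : ℕ) (N₀ : ℕ) (V W : ℕ → (Fin r → ℕ) → Prop) (hW : Few ((C₁ + 1) * R) W)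
    (h : ∀ N D, N₀ ≤ N → V N D → W ((C₁ + 1) * N) D) : Few R V := by
  obtain ⟨C, hC⟩ := hW
  refine ⟨C, fun J => ?_⟩
  obtain ⟨K, hK⟩ := hC J
  refine ⟨max K (R * 2 ^ J * N₀ + 1), fun x Y hx hY S hS => ?_⟩
  have hR : R ≤ (C₁ + 1) * R := Nat.le_mul_of_pos_left _ (by omega)
  refine hK x Y ((le_max_left _ _).trans hx) (fun s => ⟨(le_max_left _ _).trans (hY s).1,
    (hY s).2.trans (Nat.mul_le_mul_right _ hR)⟩) S fun i hi => ?_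
  obtain ⟨g1, N, D, ⟨⟨g2, g3⟩, g4⟩, g5⟩ := hS i hi
  have hN : N₀ ≤ N := by
    by_contra hcon
    push Not at hcon
    have e1 : R * 2 ^ i * N ≤ R * 2 ^ J * N₀ := by
      have e2 : 2 ^ i ≤ 2 ^ J := Nat.pow_le_pow_right (by norm_num) (mem_Icc.1 g1).2
      exact Nat.mul_le_mul (Nat.mul_le_mul_left _ e2) hcon.le
    have e3 := (le_max_right K (R * 2 ^ J * N₀ + 1)).trans hx
    omega
  refine ⟨g1, (C₁ + 1) * N, D, ⟨⟨?_, ?_⟩, fun s => ⟨(g4 s).1.trans ?_, (g4 s).2.trans (Nat.mul_le_mul_right _ hR)⟩⟩,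
    h N D hN g5⟩
  · calc x ≤ R * 2 ^ i * N := g2
      _ ≤ (C₁ + 1) * R * 2 ^ i * ((C₁ + 1) * N) := by
          refine Nat.mul_le_mul (Nat.mul_le_mul_right _ hR) ?_
          exact Nat.le_mul_of_pos_left _ (by omega)
  · calc 2 ^ i * ((C₁ + 1) * N) = (C₁ + 1) * (2 ^ i * N) := by ring
      _ ≤ (C₁ + 1) * (R * x) := Nat.mul_le_mul_left _ g3
      _ = _ := by ring
  · exact Nat.mul_le_mul_right _ (Nat.mul_le_mul_right _ hR)

theorem few_BadQ (f : ℕ → ℝ) (hf : IsMultSign f) (hap : Aperiodic f) (a : ι → ℤ) (ha : ∀ i, a i ≠ 0) (L : ι → Fin r → ℤ)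
    (b : ι → ℤ) (hg : BGood a L b) (R q : ℕ) (hq : 1 ≤ q) (δ : ℝ) (hδ : 0 < δ) : Few R (BadQ f a L b q δ) :=
  exc_QS f hf hap a ha L b hg R q hq δ hδ

theorem few_both (f : ℕ → ℝ) (hf : IsMultSign f) (hap : Aperiodic f) (a : ι → ℤ) (ha : ∀ i, a i ≠ 0) (L : ι → Fin r → ℤ)
    (b : ι → ℤ) (hg : BGood a L b) (P : ℤ[X]) (hP : 1 ≤ P.natDegree) (R : ℕ) (ε : ℝ) (hε : 0 < ε) :
    Few R (fun N D => BadW f a L b P R ε N D ∨ BadP f a L b P R ε N D) := by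
  classical
  have key : ∀ (C q N₀ : ℕ) (ε' : ℝ), 1 ≤ q → 0 < ε' → ∀ V : ℕ → (Fin r → ℕ) → Prop,
      (∀ (N : ℕ) (D : Fin r → ℕ), N₀ ≤ N →
        QS (Fintype.piFinset (fun j => Icc (1 : ℤ) (D j))) (fun d n => ((FR f a L b d n : ℝ) : ℂ)) ((C + 1) * N)
          ((C + 1) * N / q) ε' →
        QS (Fintype.piFinset (fun j => Icc (1 : ℤ) (D j))) (fun d n => ((FR f a L b d (-n) : ℝ) : ℂ)) ((C + 1) * N)
          ((C + 1) * N / q) ε' → ¬ V N D) → Few R V := by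
    intro C q N₀ ε' hq hε' V hV
    refine Few_imp R C N₀ V _ (Few_or _ _ _ (few_BadQ f hf hap a ha L b hg ((C + 1) * R) q hq ε' hε')
      (few_BadQ f hf hap (fun i => - a i) (fun i => neg_ne_zero.2 (ha i)) L b (BGood_neg hg) ((C + 1) * R) q hq ε' hε')) ?_
    intro N D hN hVN
    by_contra hcon
    unfold BadQ at hcon
    push Not at hcon
    refine hV N D hN hcon.1 ?_ hVN
    have := hcon.2
    simp only [FR_neg] at this
    exact this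
  have hn : ∀ (d : Fin r → ℤ) (n : ℤ), ‖((FR f a L b d n : ℝ) : ℂ)‖ ≤ 1 := by
    intro d n
    rw [Complex.norm_real, Real.norm_eq_abs]
    exact FR_abs f hf a L b d n
  refine Few_or R _ _ ?_ ?_
  · obtain ⟨C, q, N₀, hq1, hqN, ε', hε', h2⟩ := avg_poly_gen P hP R ε hε
    refine key C q N₀ ε' hq1 hε' _ ?_
    rintro N D hN hQ1 hQ2 ⟨y, hy1, hy2, w, hw, hlt⟩
    have h3 := h2 (Fintype.piFinset (fun j => Icc (1 : ℤ) (D j))) (fun d n => ((FR f a L b d n : ℝ) : ℂ)) N hN hn hQ1 hQ2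
      y hy1 hy2 w hw
    rw [box_card] at h3
    exact absurd hlt (not_lt.2 h3)
  · obtain ⟨C, q, N₀, hq1, hqN, ε', hε', h2⟩ := avg_prime_gen P hP R ε hε
    refine key C q N₀ ε' hq1 hε' _ ?_
    rintro N D hN hQ1 hQ2 ⟨y, hy1, hy2, hlt⟩
    have h3 := h2 (Fintype.piFinset (fun j => Icc (1 : ℤ) (D j))) (fun d n => ((FR f a L b d n : ℝ) : ℂ)) N hN hn hQ1 hQ2
      y hy1 hy2
    rw [box_card] at h3
    exact absurd hlt (not_lt.2 h3)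

end

end Pool.Agent.H542.OC
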