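import Pool.Agent.H542.OC.H3

/-!
Sign patterns of aperiodic functions along polynomials, at all but few scales.
-/

set_option autoImplicit false

namespace Pool.Agent.H542.OC

open Finset Polynomial
open Pool.Agent.H542.PC (LamC)
open Pool.Agent.Results.MP_4a7640_nt.FixedAndShortDistances (IsMultSign Aperiodic)

section
variable {k r : ℕ}

lemma FR_sub (f : ℕ → ℝ) (a : Fin k → ℤ) (L : Fin k → Fin r → ℤ) (b : Fin k → ℤ) (E : Finset (Fin k)) (d : Fin r → ℤ)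
    (n : ℤ) : FR f (fun i : E => a i) (fun i : E => L i) (fun i : E => b i) d n =
      ∏ i ∈ E, f (a i * n + ∑ j, L i j * d j + b i).natAbs := by
  unfold FR
  exact prod_coe_sort E (fun i => f (a i * n + ∑ j, L i j * d j + b i).natAbs)

open Classical in
/-- the indicator of a sign pattern -/
noncomputable def Ind (f : ℕ → ℝ) (a : Fin k → ℤ) (L : Fin k → Fin r → ℤ) (b : Fin k → ℤ) (σ : Fin k → ℝ)
    (d : Fin r → ℤ) (n : ℤ) : ℝ := if ∀ i, f (a i * n + ∑ j, L i j * d j + b i).natAbs = σ i then 1 else 0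

lemma ind_expand (f : ℕ → ℝ) (hf : IsMultSign f) (a : Fin k → ℤ) (L : Fin k → Fin r → ℤ) (b : Fin k → ℤ) (σ : Fin k → ℝ)
    (hσ : ∀ i, σ i = 1 ∨ σ i = -1) (d : Fin r → ℤ) (n : ℤ) :
    Ind f a L b σ d n - 1 / 2 ^ k = (1 / 2 ^ k) * ∑ E ∈ (univ : Finset (Fin k)).powerset.erase ∅, (∏ i ∈ E, σ i) *
      FR f (fun i : E => a i) (fun i : E => L i) (fun i : E => b i) d n := by
  classical
  have h1 : Ind f a L b σ d n = (1 / 2 ^ k) * ∏ i, (1 + σ i * f (a i * n + ∑ j, L i j * d j + b i).natAbs) := by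
    unfold Ind
    split_ifs with h
    · have : ∀ i ∈ (univ : Finset (Fin k)), 1 + σ i * f (a i * n + ∑ j, L i j * d j + b i).natAbs = 2 := by
        intro i _
        rw [h i]
        rcases hσ i with e | e <;> rw [e] <;> norm_num
      rw [prod_congr rfl this, prod_const, card_univ, Fintype.card_fin]
      field_simp
    · push Not at h
      obtain ⟨i, hi⟩ := h
      rw [prod_eq_zero (mem_univ i), mul_zero]
      rcases hσ i with e | e <;> rcases hf.1 (a i * n + ∑ j, L i j * d j + b i).natAbs with e' | e' <;>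
        rw [e, e'] at hi <;> rw [e, e'] <;> first | (exact absurd rfl hi) | norm_num
  rw [h1, prod_one_add, ← add_sum_erase _ _ (empty_mem_powerset _), prod_empty]
  have h2 : ∀ E ∈ (univ : Finset (Fin k)).powerset.erase ∅, ∏ i ∈ E, σ i * f (a i * n + ∑ j, L i j * d j + b i).natAbs =
      (∏ i ∈ E, σ i) * FR f (fun i : E => a i) (fun i : E => L i) (fun i : E => b i) d n := by
    intro E _
    rw [FR_sub, prod_mul_distrib]
  rw [sum_congr rfl h2]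
  ring

/-- the second moments of the difference from the expected value -/
lemma pat_sq (f : ℕ → ℝ) (hf : IsMultSign f) (a : Fin k → ℤ) (L : Fin k → Fin r → ℤ) (b : Fin k → ℤ) (σ : Fin k → ℝ)
    (hσ : ∀ i, σ i = 1 ∨ σ i = -1) (w : (Fin r → ℤ) → ℕ → ℂ) (T : Finset (Fin r → ℤ)) (N y : ℕ) (g : ℕ → ℤ) (B : ℝ)
    (hB0 : 0 ≤ B) (hB : ∀ E : Finset (Fin k), E.Nonempty → ∑ d ∈ T, ∑ t ∈ Icc 1 N, ‖∑ m ∈ Icc 1 y, w d m *
      ((FR f (fun i : E => a i) (fun i : E => L i) (fun i : E => b i) d (t + g m) : ℝ) : ℂ)‖ ^ 2 ≤ B) :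
    ∑ d ∈ T, ∑ t ∈ Icc 1 N, ‖∑ m ∈ Icc 1 y, w d m * ((Ind f a L b σ d (t + g m) - 1 / 2 ^ k : ℝ) : ℂ)‖ ^ 2 ≤ B := by
  classical
  set Q := (univ : Finset (Fin k)).powerset.erase ∅ with hQ
  have hcard : (Q.card : ℝ) ≤ 2 ^ k := by
    have : Q.card ≤ 2 ^ k := by
      rw [hQ]
      refine (card_erase_le).trans ?_
      rw [card_powerset, card_univ, Fintype.card_fin]
    exact_mod_cast this
  have h1 : ∀ (d : Fin r → ℤ) (t : ℕ), ‖∑ m ∈ Icc 1 y, w d m * ((Ind f a L b σ d (t + g m) - 1 / 2 ^ k : ℝ) : ℂ)‖ ^ 2 ≤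
      (1 / 2 ^ k) * ∑ E ∈ Q, ‖∑ m ∈ Icc 1 y, w d m *
        ((FR f (fun i : E => a i) (fun i : E => L i) (fun i : E => b i) d (t + g m) : ℝ) : ℂ)‖ ^ 2 := by
    intro d t
    have e1 : ∑ m ∈ Icc 1 y, w d m * ((Ind f a L b σ d (t + g m) - 1 / 2 ^ k : ℝ) : ℂ) =
        (1 / 2 ^ k : ℂ) * ∑ E ∈ Q, ((∏ i ∈ E, σ i : ℝ) : ℂ) * ∑ m ∈ Icc 1 y, w d m *
          ((FR f (fun i : E => a i) (fun i : E => L i) (fun i : E => b i) d (t + g m) : ℝ) : ℂ) := by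
      have e2 : ∀ m ∈ Icc 1 y, w d m * ((Ind f a L b σ d (t + g m) - 1 / 2 ^ k : ℝ) : ℂ) =
          (1 / 2 ^ k : ℂ) * ∑ E ∈ Q, ((∏ i ∈ E, σ i : ℝ) : ℂ) * (w d m *
            ((FR f (fun i : E => a i) (fun i : E => L i) (fun i : E => b i) d (t + g m) : ℝ) : ℂ)) := by
        intro m _
        rw [ind_expand f hf a L b σ hσ]
        push_cast
        rw [mul_sum, mul_sum, mul_sum]
        refine sum_congr rfl fun E _ => ?_
        ring
      rw [sum_congr rfl e2, ← mul_sum, sum_comm]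
      congr 1
      refine sum_congr rfl fun E _ => ?_
      rw [mul_sum]
    rw [e1, norm_mul, mul_pow]
    have e3 : ‖(1 / 2 ^ k : ℂ)‖ ^ 2 = (1 / 2 ^ k : ℝ) * (1 / 2 ^ k : ℝ) := by
      rw [norm_div, norm_pow, norm_one, Complex.norm_ofNat, sq]
    have e4 : ‖∑ E ∈ Q, ((∏ i ∈ E, σ i : ℝ) : ℂ) * ∑ m ∈ Icc 1 y, w d m *
          ((FR f (fun i : E => a i) (fun i : E => L i) (fun i : E => b i) d (t + g m) : ℝ) : ℂ)‖ ≤
        ∑ E ∈ Q, ‖∑ m ∈ Icc 1 y, w d m *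
          ((FR f (fun i : E => a i) (fun i : E => L i) (fun i : E => b i) d (t + g m) : ℝ) : ℂ)‖ := by
      refine (norm_sum_le _ _).trans (sum_le_sum fun E _ => ?_)
      rw [norm_mul, Complex.norm_real, Real.norm_eq_abs, abs_prod]
      refine mul_le_of_le_one_left (norm_nonneg _) (prod_le_one (fun _ _ => abs_nonneg _) fun i _ => ?_)
      rcases hσ i with e | e <;> rw [e] <;> simp
    have e5 : (∑ E ∈ Q, ‖∑ m ∈ Icc 1 y, w d m *
          ((FR f (fun i : E => a i) (fun i : E => L i) (fun i : E => b i) d (t + g m) : ℝ) : ℂ)‖) ^ 2 ≤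
        Q.card * ∑ E ∈ Q, ‖∑ m ∈ Icc 1 y, w d m *
          ((FR f (fun i : E => a i) (fun i : E => L i) (fun i : E => b i) d (t + g m) : ℝ) : ℂ)‖ ^ 2 :=
      sq_sum_le_card_mul_sum_sq
    have e6 := pow_le_pow_left₀ (norm_nonneg _) e4 2
    rw [e3]
    have h0 : 0 ≤ ∑ E ∈ Q, ‖∑ m ∈ Icc 1 y, w d m *
          ((FR f (fun i : E => a i) (fun i : E => L i) (fun i : E => b i) d (t + g m) : ℝ) : ℂ)‖ ^ 2 :=
      sum_nonneg fun _ _ => by positivity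
    have e7 : (1 / 2 ^ k : ℝ) * (Q.card : ℝ) ≤ 1 := by
      rw [one_div, inv_mul_le_iff₀ (by positivity)]
      linarith
    calc (1 / 2 ^ k : ℝ) * (1 / 2 ^ k : ℝ) * _ ≤ (1 / 2 ^ k : ℝ) * (1 / 2 ^ k : ℝ) * (Q.card * ∑ E ∈ Q, ‖∑ m ∈ Icc 1 y, w d m *
          ((FR f (fun i : E => a i) (fun i : E => L i) (fun i : E => b i) d (t + g m) : ℝ) : ℂ)‖ ^ 2) :=
          mul_le_mul_of_nonneg_left (e6.trans e5) (by positivity)
      _ = (1 / 2 ^ k : ℝ) * (((1 / 2 ^ k : ℝ) * Q.card) * ∑ E ∈ Q, ‖∑ m ∈ Icc 1 y, w d m *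
          ((FR f (fun i : E => a i) (fun i : E => L i) (fun i : E => b i) d (t + g m) : ℝ) : ℂ)‖ ^ 2) := by ring
      _ ≤ (1 / 2 ^ k : ℝ) * (1 * ∑ E ∈ Q, ‖∑ m ∈ Icc 1 y, w d m *
          ((FR f (fun i : E => a i) (fun i : E => L i) (fun i : E => b i) d (t + g m) : ℝ) : ℂ)‖ ^ 2) := by
          refine mul_le_mul_of_nonneg_left (mul_le_mul_of_nonneg_right e7 h0) (by positivity)
      _ = _ := by rw [one_mul]
  calc ∑ d ∈ T, ∑ t ∈ Icc 1 N, ‖∑ m ∈ Icc 1 y, w d m * ((Ind f a L b σ d (t + g m) - 1 / 2 ^ k : ℝ) : ℂ)‖ ^ 2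
      ≤ ∑ d ∈ T, ∑ t ∈ Icc 1 N, (1 / 2 ^ k) * ∑ E ∈ Q, ‖∑ m ∈ Icc 1 y, w d m *
        ((FR f (fun i : E => a i) (fun i : E => L i) (fun i : E => b i) d (t + g m) : ℝ) : ℂ)‖ ^ 2 :=
        sum_le_sum fun d _ => sum_le_sum fun t _ => h1 d t
    _ = (1 / 2 ^ k) * ∑ E ∈ Q, ∑ d ∈ T, ∑ t ∈ Icc 1 N, ‖∑ m ∈ Icc 1 y, w d m *
        ((FR f (fun i : E => a i) (fun i : E => L i) (fun i : E => b i) d (t + g m) : ℝ) : ℂ)‖ ^ 2 := by
        simp only [← mul_sum]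
        congr 1
        rw [sum_comm]
        conv_lhs =>
          enter [2, t]
          rw [sum_comm]
        rw [sum_comm]
        refine sum_congr rfl fun E _ => ?_
        rw [sum_comm]
    _ ≤ (1 / 2 ^ k) * ∑ E ∈ Q, B := by
        refine mul_le_mul_of_nonneg_left (sum_le_sum fun E hE => hB E ?_) (by positivity)
        rw [hQ, mem_erase] at hE
        exact nonempty_iff_ne_empty.2 hE.1
    _ ≤ B := by
        rw [sum_const, nsmul_eq_mul, ← mul_assoc]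
        refine mul_le_of_le_one_left hB0 ?_
        rw [one_div, inv_mul_le_iff₀ (by positivity)]
        linarith

/-- large second moments for a sign pattern, arbitrary weights -/
def PatW (f : ℕ → ℝ) (a : Fin k → ℤ) (L : Fin k → Fin r → ℤ) (b : Fin k → ℤ) (P : ℤ[X]) (R : ℕ) (ε : ℝ) (N : ℕ)
    (D : Fin r → ℕ) : Prop :=
  ∃ (y : ℕ) (σ : Fin k → ℝ) (w : (Fin r → ℤ) → ℕ → ℂ), N ≤ y ^ P.natDegree ∧ y ^ P.natDegree ≤ R * N ∧
    (∀ i, σ i = 1 ∨ σ i = -1) ∧ ((∀ d m, ‖w d m‖ ≤ 1) ∨ ∀ d m, w d m = LamC m) ∧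
    ε * (N * (y : ℝ) ^ 2 * ∏ j, (D j : ℝ)) < ∑ d ∈ Fintype.piFinset (fun j => Icc (1 : ℤ) (D j)), ∑ t ∈ Icc 1 N,
      ‖∑ m ∈ Icc 1 y, w d m * ((Ind f a L b σ d (t + P.eval (m : ℤ)) - 1 / 2 ^ k : ℝ) : ℂ)‖ ^ 2

/-- large second moments for the correlations, arbitrary weights or primes -/
def CorW (f : ℕ → ℝ) (a : Fin k → ℤ) (L : Fin k → Fin r → ℤ) (b : Fin k → ℤ) (P : ℤ[X]) (R : ℕ) (ε : ℝ) (N : ℕ)
    (D : Fin r → ℕ) : Prop :=
  ∃ (y : ℕ) (w : (Fin r → ℤ) → ℕ → ℂ), N ≤ y ^ P.natDegree ∧ y ^ P.natDegree ≤ R * N ∧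
    ((∀ d m, ‖w d m‖ ≤ 1) ∨ ∀ d m, w d m = LamC m) ∧
    ε * (N * (y : ℝ) ^ 2 * ∏ j, (D j : ℝ)) < ∑ d ∈ Fintype.piFinset (fun j => Icc (1 : ℤ) (D j)), ∑ t ∈ Icc 1 N,
      ‖∑ m ∈ Icc 1 y, w d m * ((FR f a L b d (t + P.eval (m : ℤ)) : ℝ) : ℂ)‖ ^ 2

lemma Few_mono (R : ℕ) (V W : ℕ → (Fin r → ℕ) → Prop) (hW : Few R W) (h : ∀ N D, V N D → W N D) : Few R V := by
  obtain ⟨C, hC⟩ := hW
  refine ⟨C, fun J => ?_⟩
  obtain ⟨K, hK⟩ := hC J
  refine ⟨K, fun x Y hx hY S hS => hK x Y hx hY S fun i hi => ?_⟩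
  obtain ⟨g1, N, D, g2, g3⟩ := hS i hi
  exact ⟨g1, N, D, g2, h N D g3⟩

theorem few_cor (f : ℕ → ℝ) (hf : IsMultSign f) (hap : Aperiodic f) (a : Fin k → ℤ) (ha : ∀ i, a i ≠ 0)
    (L : Fin k → Fin r → ℤ) (b : Fin k → ℤ) (hg : BGood a L b) (P : ℤ[X]) (hP : 1 ≤ P.natDegree) (R : ℕ) (ε : ℝ)
    (hε : 0 < ε) : Few R (CorW f a L b P R ε) := by
  refine Few_mono R _ _ (few_both f hf hap a ha L b hg P hP R ε hε) ?_
  rintro N D ⟨y, w, h1, h2, h3 | h3, h4⟩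
  · exact Or.inl ⟨y, h1, h2, w, h3, h4⟩
  · refine Or.inr ⟨y, h1, h2, ?_⟩
    simpa only [h3] using h4

theorem few_pat (f : ℕ → ℝ) (hf : IsMultSign f) (hap : Aperiodic f) (a : Fin k → ℤ) (ha : ∀ i, a i ≠ 0)
    (L : Fin k → Fin r → ℤ) (b : Fin k → ℤ)
    (hg : ∀ E : Finset (Fin k), E.Nonempty → BGood (fun i : E => a i) (fun i : E => L i) (fun i : E => b i))
    (P : ℤ[X]) (hP : 1 ≤ P.natDegree) (R : ℕ) (ε : ℝ) (hε : 0 < ε) : Few R (PatW f a L b P R ε) := by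
  classical
  refine Few_mono R _ _ (Few_fin ((univ : Finset (Fin k)).powerset.erase ∅) R
    (fun (E : Finset (Fin k)) N D => BadW f (fun i : E => a i) (fun i : E => L i) (fun i : E => b i) P R ε N D ∨
      BadP f (fun i : E => a i) (fun i : E => L i) (fun i : E => b i) P R ε N D) ?_) ?_
  · intro E hE
    rw [mem_erase] at hE
    exact few_both f hf hap (fun i : E => a i) (fun i => ha i) (fun i : E => L i) (fun i : E => b i)
      (hg E (nonempty_iff_ne_empty.2 hE.1)) P hP R ε hε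
  · rintro N D ⟨y, σ, w, h1, h2, hσ, h3, h4⟩
    by_contra hcon
    push Not at hcon
    refine absurd h4 (not_lt.2 ?_)
    refine pat_sq f hf a L b σ hσ w _ N y (fun m => P.eval (m : ℤ)) _ (by positivity) fun E hE => ?_
    have h5 := hcon E (mem_erase.2 ⟨nonempty_iff_ne_empty.1 hE, mem_powerset.2 (subset_univ _)⟩)
    by_contra hlt
    push Not at hlt
    rcases h3 with h3 | h3
    · exact h5.1 ⟨y, h1, h2, w, h3, hlt⟩
    · refine h5.2 ⟨y, h1, h2, ?_⟩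
      simpa only [h3] using hlt

end

end Pool.Agent.H542.OC
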